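import Pool.Agent.MWFE.StmtsC
import Pool.Agent.Helper60_MWE.FAB
import Pool.Agent.Helper89_MWE.FPR

/-!
# Squad MWFE, row FAZ (second version)
-/

set_option autoImplicit false

namespace Pool.Agent.MWFE.H65

open Pool.Agent.Helper14_MV Pool.Agent.Helper2_MV Pool.Agent.MVD
open Pool.Agent.MWE (Can XX fxy dxy dx dy up cp L4 pr Xs xl isx Fs nd nr)
open Pool.Agent.MWGR (cb)

theorem pr_sep' (i j k r : ℕ) : pr i j k (3 * r + 2) = [3 * r + 2] := by
  unfold pr
  rw [if_neg (by omega), if_neg (by omega)]

theorem bw_pr (i j k : ℕ) (R : List ℕ) (B : ℕ → List ℕ) :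
    (Bw R B).flatMap (pr i j k) = Bw R (fun r => (B r).flatMap (pr i j k)) := by
  induction R with
  | nil => rfl
  | cons r R ih =>
    have e : ∀ B : ℕ → List ℕ, Bw (r :: R) B = B r ++ [3 * r + 2] ++ Bw R B := fun _ => rfl
    rw [e, e, List.flatMap_append, List.flatMap_append, ih, List.flatMap_cons, pr_sep']
    simp

theorem sf_pr (i j k : ℕ) (D : List ℕ) (h : SFr D) : SFr (D.flatMap (pr i j k)) := by
  intro c hc
  obtain ⟨a, ha, hc⟩ := List.mem_flatMap.1 hc
  have h2 := h a ha
  unfold pr at hc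
  split at hc
  · split at hc
    · split at hc
      · simp only [List.mem_singleton] at hc; omega
      · split at hc
        · simp only [List.mem_singleton] at hc; omega
        · simp at hc
    · split at hc
      · simp only [List.mem_singleton] at hc; omega
      · simp at hc
  · split at hc
    · split at hc
      · simp only [List.mem_singleton] at hc; omega
      · simp at hc
    · simp only [List.mem_singleton] at hc; omega

theorem bw_congr (R : List ℕ) (B B' : ℕ → List ℕ) (h : ∀ r ∈ R, B r = B' r) : Bw R B = Bw R B' := by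
  induction R with
  | nil => rfl
  | cons r R ih =>
    have e : ∀ B : ℕ → List ℕ, Bw (r :: R) B = B r ++ [3 * r + 2] ++ Bw R B := fun _ => rfl
    rw [e, e, ih (fun r hr => h r (List.mem_cons_of_mem _ hr)), h r List.mem_cons_self]

theorem faz (hdet : DetStmt) (htrh : TrhStmt) (hfpz : FpzStmt) : FazStmt := by
  intro n β m R c hz hc hR hE
  have hnd : R.Nodup := hR.nodup_iff.2 List.nodup_range
  have four : ∀ (s : List ℕ) (B : ℕ → List ℕ) (e : List ℕ), (∀ r, SFr (B r)) → SFr e →
      FamZ n β m R c s (Bw R B ++ e) → ∀ i k j : ℕ, i ≤ k → k < j → j ≤ 3 →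
        RR β (ExZ n m R c (Xs i j s))
          (Bw R (pz n (3 * m + 1) (fun r => (B r).flatMap (pr i j k))) ++ e.flatMap (pr i j k)) := by
    intro s B e hB he hF i k j hik hkj hj
    obtain ⟨-, B0, e0, hw, hB0, he0, h⟩ := hF
    obtain ⟨h1, h2⟩ := Pool.Agent.MWD.H11.uniF R B B0 e e0 hnd (fun r _ => hB r)
      (fun r _ => hB0 r) he he0 hw
    have h3 := h i k j hik hkj hj
    rw [← h2] at h3
    have e1 : Bw R (pz n (3 * m + 1) (fun r => (B r).flatMap (pr i j k))) =
        Bw R (pz n (3 * m + 1) (fun r => (B0 r).flatMap (pr i j k))) := by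
      refine bw_congr R _ _ (fun r hr => ?_)
      unfold pz up
      have h0 := h1 r hr
      by_cases hr0 : r = 0
      · subst hr0
        simp only [if_true]
        rw [h0]
      · simp only [if_neg hr0]
        rw [h0]
    rw [e1]
    exact h3
  refine ⟨fun s hs => ?_, fun s w w' hw hww => ?_, fun s s' w hs hs' => ?_, four⟩
  · obtain ⟨h1, h2, h3⟩ := hfpz n β m R c s hz hc hR hs
    refine ⟨hs, Bq n m s c, [], by simp [FqZ], h3, fun a ha => absurd ha (by simp), ?_⟩
    intro i k j hik hkj hj
    have := h1 i k j hik hkj hj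
    simpa using this
  · obtain ⟨hs, B, e, rfl, hB, he, h⟩ := hw
    obtain ⟨B', e', rfl, hB', he'⟩ := hdet β R B e w' hz.i3 hnd (fun r _ => hB r) he hww
    refine ⟨hs, B', e', rfl, hB', he', ?_⟩
    intro i k j hik hkj hj
    have h1 := RR.sub (pr i j k) hww
    rw [List.flatMap_append, List.flatMap_append, bw_pr, bw_pr] at h1
    have h2 := htrh β R (fun r => (B r).flatMap (pr i j k)) (fun r => (B' r).flatMap (pr i j k))
      (fun r => if r = 0 then List.replicate n (3 * m + 1) else [])
      (fun r => if r = 0 then List.replicate n (3 * m + 1) else [])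
      (e.flatMap (pr i j k)) (e'.flatMap (pr i j k)) hnd
      (fun r _ => sf_pr i j k _ (hB r)) (fun r _ => sf_pr i j k _ (hB' r))
      (sf_pr i j k _ he) (sf_pr i j k _ he') h1
    have e1 : ∀ B : ℕ → List ℕ, (fun r => (if r = 0 then List.replicate n (3 * m + 1) else []) ++
        ((B r).flatMap (pr i j k) ++ if r = 0 then List.replicate n (3 * m + 1) else [])) =
        pz n (3 * m + 1) (fun r => (B r).flatMap (pr i j k)) := by
      intro B
      funext r
      unfold pz up
      by_cases hr0 : r = 0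
      · subst hr0
        simp
      · simp [hr0]
    rw [e1 B, e1 B'] at h2
    exact β.trans (h i k j hik hkj hj) h2
  · have m1 := Pool.Agent.MWE.H60.perm_mem hs.1
    have m2 := Pool.Agent.MWE.H60.perm_mem hs'.1
    obtain ⟨-, B, e, hw, hB, he, -⟩ := id hs
    refine Pool.Agent.MWE.H60.xs_inj s m1 s' m2 fun i j hij' => ?_
    obtain ⟨i, hi⟩ := i
    obtain ⟨j, hj⟩ := j
    have hij : i < j := hij'
    rw [hw] at hs hs'
    have h2 : RR β (ExZ n m R c (Xs i j s)) (ExZ n m R c (Xs i j s')) :=
      β.trans (four s B e hB he hs i i j le_rfl hij (by omega))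
        (RR.symm (four s' B e hB he hs' i i j le_rfl hij (by omega)))
    rcases Pool.Agent.MWE.H60.xs_two s m1 ⟨i, hi⟩ ⟨j, hj⟩ hij' with e1 | e1 <;>
      rcases Pool.Agent.MWE.H60.xs_two s' m2 ⟨i, hi⟩ ⟨j, hj⟩ hij' with e2 | e2 <;>
      simp only at e1 e2 ⊢
    · rw [e1, e2]
    · rw [e1, e2] at h2
      exact absurd h2 hE
    · rw [e1, e2] at h2
      exact absurd (RR.symm h2) hE
    · rw [e1, e2]

end Pool.Agent.MWFE.H65
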