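import Pool.Agent.MWFE.StmtsC

/-!
# Squad MWFE, row FLZ (second version)
-/

set_option autoImplicit false

namespace Pool.Agent.MWFE.H65

open Pool.Agent.Helper14_MV Pool.Agent.Helper2_MV Pool.Agent.MVD
open Pool.Agent.MWE (Can XX fxy dxy dx dy up cp L4 pr Xs xl isx Fs nd nr)
open Pool.Agent.MWGR (cb)

theorem can1 : Can 1 [1] := by
  constructor
  · intro d hd
    have : d = 0 := by omega
    subst this
    decide
  · intro a ha
    left
    refine ⟨0, by omega, ?_⟩
    simpa using ha

theorem flz_nil (hcpb : CpbStmt) (heaz : EazStmt) (hre0 : Re0Stmt) {n : ℕ} {β : FIC}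
    (hM : ModF β) (h : Hz n β) : FZ n β [] := by
  apply hre0
  by_contra hno
  refine heaz n β 1 [0, 1, 2] [1] hM ?_
  exact
    { hz := h
      can := can1
      ne := by simp
      pR := by decide
      b01 := ⟨[], [], [2], rfl⟩
      no := hno
      hb := hcpb n β h }

theorem flz_step (hcpz : CpzStmt) (heaz : EazStmt) (hrez : RezStmt) {n : ℕ} {β : FIC}
    (hM : ModF β) (h : Hz n β) {c : List ℕ} (hc : c ≠ []) (ih : IZ n β c) : FZ n β c := by
  apply hrez n β c h ih hc
  intro m R c' hcan hR hb hne hnd hnr
  by_contra hno
  have ih' : IZ n β c' := fun c'' hs => ih c'' (by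
    unfold SmL at hs ⊢
    rw [hnd, hnr] at hs
    exact hs)
  refine heaz n β m R c' hM ?_
  exact
    { hz := h
      can := hcan
      ne := hne
      pR := hR
      b01 := hb
      no := hno
      hb := hcpz n β m R c' h hcan hne ih' hR hb hno }

theorem flz (hcpz : CpzStmt) (hcpb : CpbStmt) (heaz : EazStmt) (hre0 : Re0Stmt)
    (hrez : RezStmt) : FlzStmt := by
  intro n β hM h
  have key : ∀ (N M : ℕ) (c : List ℕ), nr c = N → nd c = M → FZ n β c := by
    intro N
    induction N using Nat.strong_induction_on with
    | _ N ihN =>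
      intro M
      induction M using Nat.strong_induction_on with
      | _ M ihM =>
        intro c hN hM'
        by_cases hc : c = []
        · rw [hc]
          exact flz_nil hcpb heaz hre0 hM h
        · refine flz_step hcpz heaz hrez hM h hc ?_
          intro c' hs
          rcases hs with hs | ⟨hs1, hs2⟩
          · exact ihN (nr c') (by omega) (nd c') c' rfl rfl
          · rcases Nat.lt_or_ge (nr c') N with hlt | hge
            · exact ihN (nr c') hlt (nd c') c' rfl rfl
            · exact ihM (nd c') (by omega) c' (by omega) rfl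
  intro c
  exact key (nr c) (nd c) c rfl rfl

end Pool.Agent.MWFE.H65
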