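import Pool.Agent.MWFE.StmtsB

/-!
# Squad MWFE, row HWZ (second version)
-/

set_option autoImplicit false

namespace Pool.Agent.MWFE.H65

open Pool.Agent.Helper14_MV Pool.Agent.Helper2_MV Pool.Agent.MVD
open Pool.Agent.MWE (Can XX fxy dxy dx dy up cp L4 pr Xs xl isx Fs nd nr)
open Pool.Agent.MWGR (cb)

theorem hwz : HwzStmt := by
  intro m R c B e hb a ha hh
  rcases hb.hv a ha hh with h | h | ⟨r, hr, h⟩
  · exact Or.inl h
  · right
    refine ⟨Bw R B, e, [], by simp, ?_, h⟩
    intro d hd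
    exact hb.mu d (by simp [hd]) (hb.se d hd)
  · right
    obtain ⟨R1, R2, rfl⟩ := List.append_of_mem hr
    refine ⟨Bw R1 B, B r, (3 * r + 2) :: (Bw R2 B ++ e), ?_, ?_, h⟩
    · simp [Bw, List.flatMap_append]
    · intro d hd
      exact hb.mu d (by simp [Bw, List.flatMap_append, hd]) (hb.sf r d hd)

end Pool.Agent.MWFE.H65
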