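import Pool.Agent.MWFE.StmtsC

/-!
# Squad MWFE, rows RE0 and HWZ (second versions)
-/

set_option autoImplicit false

namespace Pool.Agent.MWFE.H65

open Pool.Agent.Helper14_MV Pool.Agent.Helper2_MV Pool.Agent.MVD
open Pool.Agent.MWE (Can XX fxy dxy dx dy up cp L4 pr Xs xl isx Fs nd nr)
open Pool.Agent.MWGR (cb)

theorem flatMap_replicate' (φ : ℕ → List ℕ) (z x : ℕ) (h : φ z = [x]) (k : ℕ) :
    (List.replicate k z).flatMap φ = List.replicate k x := by
  induction k with
  | zero => rfl
  | succ k ih => rw [List.replicate_succ, List.flatMap_cons, ih, h]; rfl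

theorem re0 : Re0Stmt := by
  intro n β h p q r z x y hzx hzy hxy hm
  have h1 := RR.sub (fun a => if a = 0 then [x] else if a = 3 then [y] else if a = 4 then [z] else
    if a = 2 then q else []) h
  have h2 := RR.append (RR.refl p) (RR.append h1 (RR.refl r))
  have e4 : ∀ k, (List.replicate k 4).flatMap (fun a => if a = 0 then [x] else if a = 3 then [y] else if a = 4 then [z] else
    if a = 2 then q else []) = List.replicate k z := fun k => flatMap_replicate' _ 4 z (by simp) k
  simpa [ExZ, Eg, Bw, KZ, tk, lam, e4, List.flatMap_append, List.flatMap_cons] using h2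

end Pool.Agent.MWFE.H65
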