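import Pool.Agent.Helper61_MWD.FeqPlug
import Pool.Agent.Helper21_MWFE.LCF
import Pool.Agent.Helper20_MWFE.EZA
import Pool.Agent.Helper27_MWFE.SQP
import Pool.Agent.Helper58_MWFE.THK
import Pool.Agent.Helper52_MWFE.HHX
import Pool.Agent.Helper81_MWFE.PHX
import Pool.Agent.Helper20_MWFE.BPX
import Pool.Agent.Helper41_MWFE.YQZ
import Pool.Agent.Helper32_MWFE.LQI
import Pool.Agent.Helper88_MWFE.LQR
import Pool.Agent.Helper7_MWFE.LQ1
import Pool.Agent.Helper15_MWFE.LQG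
import Pool.Agent.Helper20_MWFE.NEZ
import Pool.Agent.Helper8_MWFE.TRH
import Pool.Agent.Helper7_MWFE.RCF
import Pool.Agent.Helper4_MWFE.EXR
import Pool.Agent.Helper2_MWFE.MIF
import Pool.Agent.Helper59_MWFE.DET
import Pool.Agent.Helper1_MWFE.BAZ
import Pool.Agent.Helper20_MWFE.LBZ
import Pool.Agent.Helper20_MWFE.UPZ
import Pool.Agent.Helper95_MWFE.TRZ
import Pool.Agent.Helper65_MWFE.HWZ
import Pool.Agent.Helper20_MWFE.PMZ
import Pool.Agent.Helper85_MWFE.BLN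
import Pool.Agent.Helper19_MWFE.XCZ
import Pool.Agent.Helper19_MWFE.CPZ
import Pool.Agent.Helper62_MWFE.CPB
import Pool.Agent.Helper75_MWFE.ORZ
import Pool.Agent.Helper7_MWFE.NFZ
import Pool.Agent.Helper29_MWFE.CL0
import Pool.Agent.Helper76_MWFE.CL1
import Pool.Agent.Helper36_MWFE.CLP
import Pool.Agent.Helper64_MWFE.CLB
import Pool.Agent.Helper54_MWFE.FPZ
import Pool.Agent.Helper65_MWFE.FAZ
import Pool.Agent.Helper7_MWFE.FSZ
import Pool.Agent.Helper8_MWFE.SPZ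
import Pool.Agent.Helper67_MWFE.SEZ
import Pool.Agent.Helper54_MWFE.STZ
import Pool.Agent.Helper41_MWFE.NXZ
import Pool.Agent.Helper11_MWFE.SBZ
import Pool.Agent.Helper7_MWFE.EAZ
import Pool.Agent.Helper65_MWFE.RE0
import Pool.Agent.Helper98_MWFE.REZ
import Pool.Agent.Helper65_MWFE.FLZ
import Pool.Agent.Helper44_MWFE.FFE
import Pool.Agent.Helper59_MWFE.FEQ

/-!
# Squad MWFE: the composition
-/

set_option autoImplicit false

namespace Pool.Agent.MWFE.Comp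

open Pool.Agent.MWFE

theorem mLCF : LcfStmt := Pool.Agent.MWFE.H21.lcf

theorem mPWL : PwlStmt := Pool.Agent.MWFE.H20E.pwl

theorem mSQP : SqpStmt := Pool.Agent.MWFE.H27.sqp mLCF mPWL

theorem mTHK : ThkStmt := Pool.Agent.MWFE.H58.thk mPWL

theorem mHHX : HhxStmt := Pool.Agent.MWFE.H52.hhx mSQP mTHK

theorem mPHX : PhxStmt := Pool.Agent.MWFE.H81.phx mHHX

theorem mFIL : FilStmt := Pool.Agent.MWFE.H20E.fil mPWL

theorem mBPX : BpxStmt := Pool.Agent.MWFE.H20B.bpx mLCF mFIL mHHX mPHX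

theorem mYQZ : YqzStmt := Pool.Agent.MWFE.H41.yqz

theorem mCRO : CroStmt := Pool.Agent.MWFE.H20E.cro

theorem mLQI : LqiStmt := Pool.Agent.MWFE.H32.lqi mPWL mFIL

theorem mLQR : LqrStmt := Pool.Agent.MWFE.H88.lqr mFIL

theorem mLQ1 : Lq1Stmt := Pool.Agent.MWFE.H7.lq1 mLQR

theorem mLQG : LqgStmt := Pool.Agent.MWFE.H15.lqg mLQI

theorem mNEZ : NezStmt := Pool.Agent.MWFE.H20E.nez mLCF mLQI mLQ1

theorem mTRH : TrhStmt := Pool.Agent.MWFE.H8.trh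

theorem mRCF : RcfStmt := Pool.Agent.MWFE.H7.rcf

theorem mEXR : ExrStmt := Pool.Agent.MWFE.H4.exr

theorem mMIF : MifStmt := Pool.Agent.MWFE.H2.mif

theorem mDET : DetStmt := Pool.Agent.MWFE.H59.det

theorem mBAZ : BazStmt := Pool.Agent.MWFE.H1.baz mPWL mNEZ

theorem mLBZ : LbzStmt := Pool.Agent.MWFE.H20.lbz mLQI mLQR mLQG mBAZ

theorem mUPZ : UpzStmt := Pool.Agent.MWFE.H20U.upz

theorem mTRZ : TrzStmt := Pool.Agent.MWFE.H95.trz mPWL mBAZ mTRH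

theorem mHWZ : HwzStmt := Pool.Agent.MWFE.H65.hwz

theorem mPMZ : PmzStmt := Pool.Agent.MWFE.H20U.pmz mLCF mHHX mUPZ mHWZ

theorem mBLN : BlnStmt := Pool.Agent.MWFE.H85.bln mPWL mFIL mCRO mLQR mUPZ mPMZ

theorem mXCZ : XczStmt := Pool.Agent.MWFE.H19.xcz

theorem mCPZ : CpzStmt := Pool.Agent.MWFE.H19C.cpz mLQR mBAZ mLBZ mUPZ mTRZ mBLN mXCZ

theorem mCPB : CpbStmt := Pool.Agent.MWFE.H62.cpb mBAZ

theorem mORZ : OrzStmt := Pool.Agent.MWFE.H75.orz mLQR mBAZ mLBZ mTRZ mBLN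

theorem mNFZ : NfzStmt := Pool.Agent.MWFE.H7.nfz mLCF mBAZ

theorem mCL0 : Cl0Stmt := Pool.Agent.MWFE.H29.cl0 mLQR mBAZ mLBZ mTRZ mBLN

theorem mCL1 : Cl1Stmt := Pool.Agent.MWFE.H76.cl1 mPHX mBPX mBAZ mHWZ

theorem mCLP : ClpStmt := Pool.Agent.MWFE.H36.clp mPHX mBPX mBAZ mHWZ

theorem mCLB : ClbStmt := Pool.Agent.MWFE.H64.clb mCL0 mCL1 mCLP

theorem mFPZ : FpzStmt := Pool.Agent.MWFE.H54P.fpz mPWL

theorem mFAZ : FazStmt := Pool.Agent.MWFE.H65.faz mDET mTRH mFPZ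

theorem mFSZ : FszStmt := Pool.Agent.MWFE.H7.fsz mBAZ mORZ mNFZ mFAZ

theorem mSPZ : SpzStmt := Pool.Agent.MWFE.H8.spz

theorem mSEZ : SezStmt := Pool.Agent.MWFE.H67.sez mFPZ

theorem mSTZ : StzStmt := Pool.Agent.MWFE.H54.stz mYQZ mORZ mBAZ mCLB mFAZ mSPZ mSEZ

theorem mNXZ : NxzStmt := Pool.Agent.MWFE.H41.nxz

theorem mSBZ : SbzStmt := Pool.Agent.MWFE.H11.sbz mFAZ mFSZ mSPZ mSEZ mNXZ

theorem mEAZ : EazStmt := Pool.Agent.MWFE.H7.eaz mFAZ mSTZ mSBZ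

theorem mRE0 : Re0Stmt := Pool.Agent.MWFE.H65.re0

theorem mREZ : RezStmt := Pool.Agent.MWFE.H98.rez mLCF

theorem mFLZ : FlzStmt := Pool.Agent.MWFE.H65.flz mCPZ mCPB mEAZ mRE0 mREZ

theorem mFFE : FfeStmt := Pool.Agent.MWFE.H44.ffe mPWL

theorem mFEQ : FeqStmt := Pool.Agent.MWFE.H59.feq mRCF mEXR mMIF mFFE mFLZ

/-- **The identities FE, FE' of the isoterm world, all periods.** -/
theorem feQ : ∀ n, Helper61_MWD.FeQ n := Helper61_MWD.feQ_of mFEQ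

end Pool.Agent.MWFE.Comp
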